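import Mathlib

set_option autoImplicit false

namespace Pool.Agent.Results.MP_fb9257_co.DeltaNine

/-- The edges of `P` (the edges incident with one vertex) receive pairwise distinct colours that
form a set of consecutive integers `a, a+1, ..., a + |P| - 1`. -/
def IntervalOn {k : ℕ} (c : Fin k → ℕ) (P : Finset (Fin k)) : Prop :=
  Set.InjOn c (P : Set (Fin k)) ∧ ∃ a : ℕ, P.image c = Finset.Ico a (a + P.card)

/-- The edges at the left vertex `x` of the bipartite multigraph with edge set `Fin k`, in which
the edge `e` joins the left vertex `s e` and the right vertex `t e`. -/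
def edgesL {m k : ℕ} (s : Fin k → Fin m) (x : Fin m) : Finset (Fin k) :=
  Finset.univ.filter fun e => s e = x

/-- An interval colouring of the bipartite multigraph given by `s` and `t`: positive colours,
and at every vertex (on either side) the colours are distinct and consecutive. -/
def IsIntervalColouring {m n k : ℕ} (s : Fin k → Fin m) (t : Fin k → Fin n)
    (c : Fin k → ℕ) : Prop :=
  (∀ e, 1 ≤ c e) ∧ (∀ x, IntervalOn c (edgesL s x)) ∧ (∀ y, IntervalOn c (edgesL t y))

/-- The maximum degree of the bipartite multigraph given by `s` and `t` is `D`. -/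
def MaxDegreeIs {m n k : ℕ} (s : Fin k → Fin m) (t : Fin k → Fin n) (D : ℕ) : Prop :=
  (∀ x, (edgesL s x).card ≤ D) ∧ (∀ y, (edgesL t y).card ≤ D) ∧
    ((∃ x, (edgesL s x).card = D) ∨ (∃ y, (edgesL t y).card = D))

lemma mem_edgesL {m k : ℕ} (s : Fin k → Fin m) (x : Fin m) (e : Fin k) :
    e ∈ edgesL s x ↔ s e = x := by simp [edgesL]

lemma close {k : ℕ} {c : Fin k → ℕ} {P : Finset (Fin k)} (h : IntervalOn c P) {e f : Fin k}
    (he : e ∈ P) (hf : f ∈ P) : c e < c f + P.card := by
  obtain ⟨_, a, ha⟩ := h
  have h1 : c e ∈ Finset.Ico a (a + P.card) := by rw [← ha]; exact Finset.mem_image_of_mem c he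
  have h2 : c f ∈ Finset.Ico a (a + P.card) := by rw [← ha]; exact Finset.mem_image_of_mem c hf
  rw [Finset.mem_Ico] at h1 h2
  omega

/-- left ends: the hub is `0`, the other left vertex is `1`. -/
def sD (D : ℕ) (e : Fin (D + 3)) : Fin 2 := if e.val < D then 0 else 1

/-- right ends: three parallel edges from the hub to `0`, three to `1`, `D - 6` to `2`. -/
def tD (D : ℕ) (e : Fin (D + 3)) : Fin 3 :=
  if e.val < 3 then 0 else if e.val < 6 then 1 else if e.val < D then 2 else
    if e.val = D then 0 else if e.val = D + 1 then 1 else 2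

lemma card_hub (D : ℕ) : (edgesL (sD D) 0).card = D := by
  have : edgesL (sD D) 0 = (Finset.univ : Finset (Fin D)).map
      ⟨Fin.castLE (by omega), Fin.castLE_injective _⟩ := by
    ext e
    rw [mem_edgesL]
    simp only [Finset.mem_map, Finset.mem_univ, true_and, Function.Embedding.coeFn_mk]
    constructor
    · intro h
      have : e.val < D := by
        by_contra hn
        simp [sD, hn] at h
      exact ⟨⟨e.val, this⟩, rfl⟩
    · rintro ⟨f, rfl⟩
      simp [sD]
  rw [this, Finset.card_map, Finset.card_univ, Fintype.card_fin]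

lemma card_le_of_vals {k : ℕ} (P : Finset (Fin k)) (Q : Finset ℕ)
    (h : ∀ e ∈ P, e.val ∈ Q) : P.card ≤ Q.card :=
  Finset.card_le_card_of_injOn (fun e => e.val) h (fun _ _ _ _ hab => Fin.ext hab)

lemma card_x (D : ℕ) : (edgesL (sD D) 1).card ≤ 3 := by
  have := card_le_of_vals (edgesL (sD D) 1) {D, D + 1, D + 2} (by
    intro e he
    rw [mem_edgesL] at he
    have h1 : ¬ e.val < D := by
      intro hn
      simp [sD, hn] at he
    have := e.isLt
    simp only [Finset.mem_insert, Finset.mem_singleton]
    omega)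
  exact this.trans Finset.card_le_three

lemma card_u0 (D : ℕ) (hD : 9 ≤ D) : (edgesL (tD D) 0).card ≤ 4 := by
  have := card_le_of_vals (edgesL (tD D) 0) {0, 1, 2, D} (by
    intro e he
    rw [mem_edgesL] at he
    unfold tD at he
    simp only [Finset.mem_insert, Finset.mem_singleton]
    split_ifs at he <;> omega)
  exact this.trans Finset.card_le_four

lemma card_u1 (D : ℕ) (hD : 9 ≤ D) : (edgesL (tD D) 1).card ≤ 4 := by
  have := card_le_of_vals (edgesL (tD D) 1) {3, 4, 5, D + 1} (by
    intro e he
    rw [mem_edgesL] at he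
    unfold tD at he
    simp only [Finset.mem_insert, Finset.mem_singleton]
    split_ifs at he <;> omega)
  exact this.trans Finset.card_le_four

lemma card_u2 (D : ℕ) (hD : 9 ≤ D) : (edgesL (tD D) 2).card ≤ D - 5 := by
  have := card_le_of_vals (edgesL (tD D) 2) (insert (D + 2) (Finset.Ico 6 D)) (by
    intro e he
    have := e.isLt
    rw [mem_edgesL] at he
    unfold tD at he
    simp only [Finset.mem_insert, Finset.mem_Ico]
    split_ifs at he <;> omega)
  refine this.trans ((Finset.card_insert_le _ _).trans ?_)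
  rw [Nat.card_Ico]
  omega

/-- number of hub edges to the right vertex `j` -/
def mu (D : ℕ) (j : Fin 3) : ℕ := if j = 2 then D - 6 else 3

lemma card_u (D : ℕ) (hD : 9 ≤ D) (j : Fin 3) : (edgesL (tD D) j).card ≤ mu D j + 1 := by
  fin_cases j
  · exact (card_u0 D hD).trans (by simp [mu])
  · exact (card_u1 D hD).trans (by simp [mu])
  · refine (card_u2 D hD).trans ?_
    simp only [mu]
    simp
    omega

lemma mu_sum (D : ℕ) (hD : 9 ≤ D) (i j l : Fin 3) (hij : i ≠ j) (hil : i ≠ l) (hjl : j ≠ l) :
    mu D i + mu D j + mu D l = D := by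
  fin_cases i <;> fin_cases j <;> fin_cases l <;> simp [mu] at * <;> omega

lemma mu_ge (D : ℕ) (hD : 9 ≤ D) (j : Fin 3) : 3 ≤ mu D j := by
  unfold mu
  split_ifs <;> omega

/-- the edge from the second left vertex to `j` -/
def xe (D : ℕ) (j : Fin 3) : Fin (D + 3) := ⟨D + j.val, by omega⟩

lemma xe_t (D : ℕ) (hD : 9 ≤ D) (j : Fin 3) : tD D (xe D j) = j := by
  have h1 : ¬ D + j.val < 3 := by omega
  have h2 : ¬ D + j.val < 6 := by omega
  have h3 : ¬ D + j.val < D := by omega
  unfold tD xe
  simp only [h1, h2, h3, if_false]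
  fin_cases j <;> simp

lemma xe_s (D : ℕ) (j : Fin 3) : sD D (xe D j) = 1 := by
  simp [sD, xe]

lemma no_colouring (D : ℕ) (hD : 9 ≤ D) (c : Fin (D + 3) → ℕ)
    (hc : IsIntervalColouring (sD D) (tD D) c) : False := by
  obtain ⟨_, hL, hR⟩ := hc
  have hub := hL 0
  obtain ⟨_, a, ha⟩ := hub
  rw [card_hub] at ha
  -- hub edges with prescribed colour
  have hsurj : ∀ y, a ≤ y → y < a + D → ∃ e, sD D e = 0 ∧ c e = y := by
    intro y h1 h2
    have : y ∈ (edgesL (sD D) 0).image c := by rw [ha, Finset.mem_Ico]; exact ⟨h1, h2⟩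
    obtain ⟨e, he, hey⟩ := Finset.mem_image.mp this
    exact ⟨e, by simpa [edgesL] using he, hey⟩
  -- two edges at the same right vertex
  have hclose : ∀ e f : Fin (D + 3), tD D e = tD D f → c e ≤ c f + mu D (tD D e) := by
    intro e f hef
    have h1 := close (hR (tD D e)) (e := e) (f := f) (by simp [edgesL]) (by simp [edgesL, hef])
    have h2 := card_u D hD (tD D e)
    omega
  have hinjR : ∀ e f : Fin (D + 3), tD D e = tD D f → c e = c f → e = f := by
    intro e f hef hc
    exact (hR (tD D e)).1 (by simp [edgesL]) (by simp [edgesL, hef]) hc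
  have hx : ∀ i j : Fin 3, c (xe D i) ≤ c (xe D j) + 2 := by
    intro i j
    have h1 := close (hL 1) (e := xe D i) (f := xe D j) (by simp [edgesL, xe_s])
      (by simp [edgesL, xe_s])
    have h2 := card_x D
    omega
  have hxinj : ∀ i j : Fin 3, i ≠ j → c (xe D i) ≠ c (xe D j) := by
    intro i j hij h
    have h1 := (hL 1).1 (by simp [edgesL, xe_s]) (by simp [edgesL, xe_s]) h
    apply hij
    have h2 : (xe D i).val = (xe D j).val := by rw [h1]
    simp only [xe] at h2
    exact Fin.ext (by omega)
  obtain ⟨e, hes, hec⟩ := hsurj a le_rfl (by omega)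
  obtain ⟨f, hfs, hfc⟩ := hsurj (a + D - 1) (by omega) (by omega)
  set i := tD D e with hi
  set j := tD D f with hj
  have hij : i ≠ j := by
    intro h
    have h1 := hclose f e (by rw [← hi, ← hj, h])
    have h2 : mu D (tD D f) ≤ D - 6 := by
      unfold mu
      split_ifs <;> omega
    omega
  obtain ⟨l, hil, hjl⟩ : ∃ l : Fin 3, i ≠ l ∧ j ≠ l := by
    revert hij
    generalize i = i'
    generalize j = j'
    revert i' j'
    decide
  have hsum := mu_sum D hD i j l hij hil hjl
  have hl3 := mu_ge D hD l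
  have h1 : c (xe D i) ≤ a + mu D i := by
    have := hclose (xe D i) e (by rw [xe_t D hD, hi])
    rw [xe_t D hD, hec] at this
    exact this
  have h2 : a + D - 1 ≤ c (xe D j) + mu D j := by
    have := hclose f (xe D j) (by rw [xe_t D hD, hj])
    rw [hfc] at this
    exact this
  have h3 := hx j i
  have h4 := hx l i
  have h5 := hx j l
  have h6 := hxinj l i hil.symm
  have h7 := hxinj l j hjl.symm
  have h8 := hx i l
  have hy : c (xe D l) = a + mu D i + 1 := by omega
  obtain ⟨g, hgs, hgc⟩ := hsurj (a + mu D i + 1) (by omega) (by omega)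
  have hcases : ∀ p q r z : Fin 3, p ≠ q → p ≠ r → q ≠ r → z = p ∨ z = q ∨ z = r := by decide
  rcases hcases i j l (tD D g) hij hil hjl with h | h | h
  · have := hclose g e (by rw [h, hi])
    rw [hgc, hec, h] at this
    omega
  · have := hclose f g (by rw [h, hj])
    rw [hgc, hfc, ← hj] at this
    omega
  · have h9 := hinjR g (xe D l) (by rw [xe_t D hD, h]) (by rw [hgc, hy])
    rw [h9, xe_s] at hgs
    exact absurd hgs (by decide)

/-- For every `D ≥ 9` there is a bipartite multigraph of maximum degree `D` that has no interval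
colouring. -/
theorem result : ∀ D : ℕ, 9 ≤ D → ∃ (m n k : ℕ) (s : Fin k → Fin m) (t : Fin k → Fin n),
    MaxDegreeIs s t D ∧ ¬ ∃ c : Fin k → ℕ, IsIntervalColouring s t c := by
  intro D hD
  refine ⟨2, 3, D + 3, sD D, tD D, ⟨?_, ?_, ?_⟩, ?_⟩
  · intro x
    fin_cases x
    · exact (card_hub D).le
    · exact (card_x D).trans (by omega)
  · intro y
    fin_cases y
    · exact (card_u0 D hD).trans (by omega)
    · exact (card_u1 D hD).trans (by omega)
    · exact (card_u2 D hD).trans (by omega)
  · exact Or.inl ⟨0, card_hub D⟩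
  · rintro ⟨c, hc⟩
    exact no_colouring D hD c hc

end Pool.Agent.Results.MP_fb9257_co.DeltaNine
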